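import Pool.Agent.W2helper1.NR.Stm

set_option autoImplicit false

open MeasureTheory ProbabilityTheory Finset

namespace Pool.Agent.W2helper15.NR

open Pool.Agent.W2helper1.NR

universe u

/-- Truncation level. -/
noncomputable def tau (R K : ℝ) (k : ℕ) : ℝ := min (R / k) (K ^ 2)

/-- One factor. -/
noncomputable def fk (R K : ℝ) (k : ℕ) (x : ℝ) : ℝ :=
  if k = 0 then 1 else Real.exp (10 / tau R K k * min (x ^ 2) (tau R K k))

/-- Coefficient. -/
noncomputable def ck (R K : ℝ) (k : ℕ) : ℝ :=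
  if k = 0 then 1 else Real.exp (4 * k - 10 / tau R K k * R)

/-- The bound for `exp (4 k(a))`. -/
noncomputable def GG {n : ℕ} (R K : ℝ) (a : Fin n → ℝ) : ℝ :=
  ∑ k ∈ Finset.range (n + 1), ck R K k * ∏ i, fk R K k (a i)

lemma ck_pos (R K : ℝ) (k : ℕ) : 0 < ck R K k := by
  unfold ck; split_ifs <;> positivity

lemma fk_pos (R K : ℝ) (k : ℕ) (x : ℝ) : 0 < fk R K k x := by
  unfold fk; split_ifs <;> positivity

lemma term_le_GG {n : ℕ} (R K : ℝ) (a : Fin n → ℝ) {k : ℕ} (hk : k ∈ Finset.range (n + 1)) :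
    ck R K k * ∏ i, fk R K k (a i) ≤ GG R K a := by
  unfold GG
  exact Finset.single_le_sum (f := fun k => ck R K k * ∏ i, fk R K k (a i)) (fun k _ =>
    mul_nonneg (ck_pos _ _ _).le (Finset.prod_nonneg fun i _ => (fk_pos _ _ _ _).le)) hk

lemma one_le_GG {n : ℕ} (R K : ℝ) (a : Fin n → ℝ) : 1 ≤ GG R K a := by
  have h := term_le_GG R K a (Finset.mem_range.2 (Nat.succ_pos n))
  simpa [ck, fk] using h

lemma tau_pos {R K : ℝ} (hR : 0 < R) (hK : 1 ≤ K) {k : ℕ} (hk : k ≠ 0) : 0 < tau R K k := by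
  unfold tau
  have : (0 : ℝ) < k := by exact_mod_cast Nat.pos_of_ne_zero hk
  exact lt_min (by positivity) (by positivity)

/-- Deterministic part: the least number of entries to be removed. -/
lemma det {n : ℕ} {R K : ℝ} (hR : 0 < R) (hK : 1 ≤ K) (a : Fin n → ℝ) (ha : ∀ i, |a i| ≤ K) :
    ∃ D : Finset (Fin n), ∑ i ∈ Dᶜ, (a i) ^ 2 ≤ R ∧ Real.exp (4 * D.card) ≤ GG R K a := by
  classical
  have hex : ∃ m : ℕ, ∃ D : Finset (Fin n), D.card = m ∧ ∑ i ∈ Dᶜ, (a i) ^ 2 ≤ R :=
    ⟨_, Finset.univ, rfl, by simpa using hR.le⟩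
  obtain ⟨D, hDc, hDR⟩ := Nat.find_spec hex
  have hmin : ∀ m, m < Nat.find hex → ∀ D : Finset (Fin n), D.card = m →
      R < ∑ i ∈ Dᶜ, (a i) ^ 2 := fun m hm D hD => by
    by_contra hc
    exact Nat.find_min hex hm ⟨D, hD, not_lt.1 hc⟩
  generalize Nat.find hex = k at hDc hmin
  refine ⟨D, hDR, ?_⟩
  rw [hDc]
  by_cases hk : k = 0
  · rw [hk]; simpa using one_le_GG R K a
  have hk0 : (0 : ℝ) < k := by exact_mod_cast Nat.pos_of_ne_zero hk
  have hkn : k ∈ Finset.range (n + 1) := by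
    rw [Finset.mem_range, ← hDc]
    have := Finset.card_le_univ D
    rw [Fintype.card_fin] at this
    omega
  have hτ := tau_pos hR hK hk
  -- the truncated sum is at least `R`
  have hmm : ∀ i, min ((a i) ^ 2) (tau R K k) = min ((a i) ^ 2) (R / k) := by
    intro i
    have h1 : (a i) ^ 2 ≤ K ^ 2 := by
      rw [← sq_abs]
      exact pow_le_pow_left₀ (abs_nonneg _) (ha i) 2
    unfold tau
    rcases le_total (R / k) (K ^ 2) with h | h
    · rw [min_eq_left h]
    · rw [min_eq_right h, min_eq_left h1, min_eq_left (h1.trans h)]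
  have hS : R ≤ ∑ i, min ((a i) ^ 2) (tau R K k) := by
    simp only [hmm]
    set D' : Finset (Fin n) := univ.filter fun i => R / k < (a i) ^ 2 with hD'
    by_cases hc : k ≤ D'.card
    · have h1 : ∑ i ∈ D', (R / k) ≤ ∑ i ∈ D', min ((a i) ^ 2) (R / k) :=
        Finset.sum_le_sum fun i hi => le_min (Finset.mem_filter.1 hi).2.le le_rfl
      have h2 : ∑ i ∈ D', min ((a i) ^ 2) (R / k) ≤ ∑ i, min ((a i) ^ 2) (R / k) :=
        Finset.sum_le_sum_of_subset_of_nonneg (Finset.subset_univ _) fun i _ _ =>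
          le_min (sq_nonneg _) (by positivity)
      rw [Finset.sum_const, nsmul_eq_mul] at h1
      have h3 : R ≤ (D'.card : ℝ) * (R / k) := by
        have : (k : ℝ) ≤ D'.card := by exact_mod_cast hc
        calc R = k * (R / k) := by field_simp
          _ ≤ _ := mul_le_mul_of_nonneg_right this (by positivity)
      linarith
    · have h1 := (hmin _ (not_le.1 hc) D' rfl).le
      have h2 : ∑ i ∈ D'ᶜ, (a i) ^ 2 = ∑ i ∈ D'ᶜ, min ((a i) ^ 2) (R / k) := by
        refine Finset.sum_congr rfl fun i hi => ?_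
        rw [Finset.mem_compl, hD', Finset.mem_filter, not_and, not_lt] at hi
        rw [min_eq_left (hi (Finset.mem_univ _))]
      have h3 : ∑ i ∈ D'ᶜ, min ((a i) ^ 2) (R / k) ≤ ∑ i, min ((a i) ^ 2) (R / k) :=
        Finset.sum_le_sum_of_subset_of_nonneg (Finset.subset_univ _) fun i _ _ =>
          le_min (sq_nonneg _) (by positivity)
      linarith
  refine le_trans ?_ (term_le_GG R K a hkn)
  have hf : ∀ i, fk R K k (a i) = Real.exp (10 / tau R K k * min ((a i) ^ 2) (tau R K k)) := by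
    intro i; simp [fk, hk]
  simp only [hf, ck, if_neg hk]
  rw [← Real.exp_sum, ← Real.exp_add, ← Finset.mul_sum]
  apply Real.exp_le_exp.2
  have := mul_le_mul_of_nonneg_left hS (show 0 ≤ 10 / tau R K k by positivity)
  linarith

lemma measurable_fk (R K : ℝ) (k : ℕ) : Measurable (fk R K k) := by
  unfold fk
  split_ifs
  · exact measurable_const
  · fun_prop

lemma fk_le {R K : ℝ} (hR : 0 < R) (hK : 1 ≤ K) {k : ℕ} (hk : k ≠ 0) (x : ℝ) :
    fk R K k x ≤ 1 + x ^ 2 / tau R K k * (Real.exp 10 - 1) := by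
  have hτ := tau_pos hR hK hk
  simp only [fk, if_neg hk]
  set t := tau R K k
  have hu0 : 0 ≤ min (x ^ 2) t := le_min (sq_nonneg _) hτ.le
  have hu1 : min (x ^ 2) t / t ≤ 1 := (div_le_one hτ).2 (min_le_right _ _)
  have hu2 : 0 ≤ min (x ^ 2) t / t := div_nonneg hu0 hτ.le
  have hconv := convexOn_exp.2 (Set.mem_univ (0 : ℝ)) (Set.mem_univ (10 : ℝ))
    (sub_nonneg.2 hu1) hu2 (by ring)
  simp only [smul_eq_mul, mul_zero, zero_add, Real.exp_zero, mul_one] at hconv
  have e1 : 10 / t * min (x ^ 2) t = min (x ^ 2) t / t * 10 := by ring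
  rw [e1]
  refine hconv.trans ?_
  have h10 : (0 : ℝ) ≤ Real.exp 10 - 1 := by
    have := Real.add_one_le_exp (10 : ℝ)
    linarith
  have h3 : min (x ^ 2) t / t ≤ x ^ 2 / t := div_le_div_of_nonneg_right (min_le_left _ _) hτ.le
  nlinarith [mul_le_mul_of_nonneg_right h3 h10]

lemma fk_bdd {R K : ℝ} (hR : 0 < R) (hK : 1 ≤ K) (k : ℕ) (x : ℝ) : fk R K k x ≤ Real.exp 10 := by
  by_cases hk : k = 0
  · simp only [fk, if_pos hk]
    exact Real.one_le_exp (by norm_num)
  have hτ := tau_pos hR hK hk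
  simp only [fk, if_neg hk]
  apply Real.exp_le_exp.2
  have := mul_le_mul_of_nonneg_left (min_le_right (x ^ 2) (tau R K k))
    (show 0 ≤ 10 / tau R K k by positivity)
  refine this.trans (le_of_eq ?_)
  field_simp

lemma exp_ten : Real.exp 10 ≤ 60000 := by
  have h := Real.exp_one_lt_d9
  have : Real.exp 10 = Real.exp 1 ^ 10 := by
    rw [← Real.exp_nat_mul]; norm_num
  rw [this]
  calc Real.exp 1 ^ 10 ≤ 2.7182818286 ^ 10 := pow_le_pow_left₀ (Real.exp_pos _).le h.le 10
    _ ≤ 60000 := by norm_num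

variable {Ω : Type u} [MeasurableSpace Ω] {P : Measure Ω} [IsProbabilityMeasure P]

lemma int_fk {n : ℕ} {b : Fin n → Fin n → Ω → ℝ} {K R : ℝ} (hb : Hyp P b K) (hR : 0 < R)
    {k : ℕ} (hk : k ≠ 0) (i j : Fin n) :
    ∫ ω, fk R K k (b i j ω) ∂P ≤ Real.exp (Real.exp 10 / (n * tau R K k)) := by
  have hK := hb.K1
  have hτ := tau_pos hR hK hk
  have hn : (0 : ℝ) < n := by exact_mod_cast (Fin.pos i)
  have hb2 : Integrable (fun ω => (b i j ω) ^ 2) P := by
    refine Integrable.of_bound ((hb.meas i j).pow_const 2).aestronglyMeasurable (K ^ 2)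
      (Filter.Eventually.of_forall fun ω => ?_)
    rw [Real.norm_eq_abs, abs_pow]
    exact pow_le_pow_left₀ (abs_nonneg _) (hb.bdd i j ω) 2
  have h1 : ∫ ω, fk R K k (b i j ω) ∂P ≤
      ∫ ω, (1 + (b i j ω) ^ 2 / tau R K k * (Real.exp 10 - 1)) ∂P := by
    refine integral_mono_of_nonneg (Filter.Eventually.of_forall fun ω => (fk_pos _ _ _ _).le) ?_
      (Filter.Eventually.of_forall fun ω => fk_le hR hK hk _)
    exact (integrable_const _).add ((hb2.div_const _).mul_const _)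
  have h2 : ∫ ω, (1 + (b i j ω) ^ 2 / tau R K k * (Real.exp 10 - 1)) ∂P =
      1 + (∫ ω, (b i j ω) ^ 2 ∂P) / tau R K k * (Real.exp 10 - 1) := by
    rw [integral_add (integrable_const _) ((hb2.div_const _).mul_const _), integral_mul_const,
      integral_div]
    simp
  have h10 : (0 : ℝ) ≤ Real.exp 10 - 1 := by
    have := Real.add_one_le_exp (10 : ℝ)
    linarith
  have h3 : (∫ ω, (b i j ω) ^ 2 ∂P) / tau R K k * (Real.exp 10 - 1) ≤
      Real.exp 10 / (n * tau R K k) := by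
    have := hb.var i j
    calc (∫ ω, (b i j ω) ^ 2 ∂P) / tau R K k * (Real.exp 10 - 1)
        ≤ (1 / n) / tau R K k * (Real.exp 10 - 1) :=
          mul_le_mul_of_nonneg_right (div_le_div_of_nonneg_right this hτ.le) h10
      _ ≤ (1 / n) / tau R K k * Real.exp 10 :=
          mul_le_mul_of_nonneg_left (by linarith) (by positivity)
      _ = _ := by field_simp
  rw [h2] at h1
  have h4 := Real.add_one_le_exp (Real.exp 10 / (n * tau R K k))
  linarith

/-- One term of the expectation of `GG`. -/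
lemma term_bound {n : ℕ} {b : Fin n → Fin n → Ω → ℝ} {K R : ℝ} (hb : Hyp P b K)
    (hRK : 60000 * K ^ 2 ≤ R) {k : ℕ} (hk : k ≠ 0) (j : Fin n) :
    ck R K k * ∏ i, ∫ ω, fk R K k (b i j ω) ∂P ≤
      Real.exp (-(k : ℝ)) * Real.exp (-(4 * (R / K ^ 2))) := by
  have hK := hb.K1
  have hK2 : (1 : ℝ) ≤ K ^ 2 := by nlinarith
  have hR : 0 < R := by nlinarith
  have hτ := tau_pos hR hK hk
  have hn : (0 : ℝ) < n := by exact_mod_cast (Fin.pos j)
  have hk0 : (0 : ℝ) < k := by exact_mod_cast Nat.pos_of_ne_zero hk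
  have h1 : ∏ i, ∫ ω, fk R K k (b i j ω) ∂P ≤ ∏ _i : Fin n, Real.exp (Real.exp 10 / (n * tau R K k)) :=
    Finset.prod_le_prod (fun i _ => integral_nonneg fun ω => (fk_pos _ _ _ _).le)
      fun i _ => int_fk hb hR hk i j
  have h2 : ∏ _i : Fin n, Real.exp (Real.exp 10 / (n * tau R K k)) =
      Real.exp (Real.exp 10 / tau R K k) := by
    rw [Finset.prod_const, Finset.card_univ, Fintype.card_fin, ← Real.exp_nat_mul]
    congr 1
    field_simp
  rw [h2] at h1
  refine (mul_le_mul_of_nonneg_left h1 (ck_pos _ _ _).le).trans ?_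
  simp only [ck, if_neg hk]
  rw [← Real.exp_add, ← Real.exp_add]
  apply Real.exp_le_exp.2
  -- `R / τ ≥ k` and `R / τ ≥ R / K²`
  have hA : (k : ℝ) ≤ R / tau R K k := by
    rw [le_div_iff₀ hτ]
    have : tau R K k ≤ R / k := min_le_left _ _
    calc (k : ℝ) * tau R K k ≤ k * (R / k) := mul_le_mul_of_nonneg_left this hk0.le
      _ = R := by field_simp
  have hB : R / K ^ 2 ≤ R / tau R K k :=
    div_le_div_of_nonneg_left hR.le hτ (min_le_right _ _)
  have hC : Real.exp 10 / tau R K k ≤ R / tau R K k := by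
    refine div_le_div_of_nonneg_right ?_ hτ.le
    have := exp_ten
    nlinarith
  have hD : 10 / tau R K k * R = 10 * (R / tau R K k) := by ring
  rw [hD]
  linarith

lemma geom_exp (n : ℕ) : ∑ k ∈ Finset.range n, Real.exp (-((k : ℝ) + 1)) ≤ 1 := by
  have h2 : Real.exp (-1) ≤ 1 / 2 := by
    rw [Real.exp_neg, inv_eq_one_div]
    have := Real.add_one_le_exp (1 : ℝ)
    exact one_div_le_one_div_of_le (by norm_num) (by linarith)
  have h1 : ∀ k : ℕ, Real.exp (-((k : ℝ) + 1)) ≤ (1 / 2) ^ (k + 1) := by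
    intro k
    have : Real.exp (-((k : ℝ) + 1)) = Real.exp (-1) ^ (k + 1) := by
      rw [← Real.exp_nat_mul]; congr 1; push_cast; ring
    rw [this]
    exact pow_le_pow_left₀ (Real.exp_pos _).le h2 _
  refine (Finset.sum_le_sum fun k _ => h1 k).trans ?_
  have h3 : ∀ m : ℕ, ∑ k ∈ Finset.range m, ((1 : ℝ) / 2) ^ (k + 1) = 1 - (1 / 2) ^ m := by
    intro m
    induction m with
    | zero => simp
    | succ m ih => rw [Finset.sum_range_succ, ih]; ring
  rw [h3]
  have : (0 : ℝ) ≤ (1 / 2) ^ n := by positivity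
  linarith

/-- Piece B. -/
theorem pieceB : PieceB.{u} := by
  intro Ω _ P _ n b K ε R hb hε hε6 hR
  classical
  have hK := hb.K1
  have hK2 : (1 : ℝ) ≤ K ^ 2 := by nlinarith
  have hlog : 1 ≤ Real.log (1 / ε) := by
    rw [Real.le_log_iff_exp_le (by positivity)]
    have h1 := Real.exp_one_lt_d9
    have h2 : (6 : ℝ) ≤ 1 / ε := by
      rw [le_div_iff₀ hε]; linarith
    linarith
  have hRK : 60000 * K ^ 2 ≤ R := by nlinarith
  have hR0 : 0 < R := by nlinarith
  have hε1 : ε < 1 := by linarith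
  -- `exp (-4 R / K²) ≤ ε²`
  have hsmall : Real.exp (-(4 * (R / K ^ 2))) ≤ ε ^ 2 := by
    have h1 : ε ^ 2 = Real.exp (-(2 * Real.log (1 / ε))) := by
      rw [Real.log_div one_ne_zero hε.ne', Real.log_one, zero_sub]
      rw [show -(2 * -Real.log ε) = (2 : ℕ) * Real.log ε by push_cast; ring, Real.exp_nat_mul,
        Real.exp_log hε]
    rw [h1]
    apply Real.exp_le_exp.2
    have h2 : 200000 * Real.log (1 / ε) ≤ R / K ^ 2 := by
      rw [le_div_iff₀ (by positivity)]
      linarith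
    linarith
  set G : Ω → ℝ := fun ω => ∏ j, GG R K (fun i => b i j ω) with hG
  -- expectation
  have hint : ∀ κ : Fin n → ℕ, ∫ ω, ∏ j, ∏ i, fk R K (κ j) (b i j ω) ∂P =
      ∏ j, ∏ i, ∫ ω, fk R K (κ j) (b i j ω) ∂P := by
    intro κ
    have h := iIndepFun.integral_fun_prod_comp (𝕜 := ℝ) hb.ind
      (fun p => (hb.meas p.1 p.2).aemeasurable)
      (f := fun p x => fk R K (κ p.2) x)
      (fun p => (measurable_fk R K (κ p.2)).aestronglyMeasurable)
    rw [Fintype.prod_prod_type_right] at h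
    rw [← h]
    refine integral_congr_ae (Filter.Eventually.of_forall fun ω => ?_)
    simp only
    rw [Fintype.prod_prod_type_right]
  have hmeasT : ∀ κ : Fin n → ℕ, Measurable fun ω => ∏ j, ∏ i, fk R K (κ j) (b i j ω) := by
    intro κ
    exact Finset.measurable_prod _ fun j _ => Finset.measurable_prod _ fun i _ =>
      (measurable_fk R K (κ j)).comp (hb.meas i j)
  have hintT : ∀ κ : Fin n → ℕ, Integrable (fun ω => ∏ j, ∏ i, fk R K (κ j) (b i j ω)) P := by
    intro κ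
    refine Integrable.of_bound (hmeasT κ).aestronglyMeasurable
      (∏ _j : Fin n, ∏ _i : Fin n, Real.exp 10) (Filter.Eventually.of_forall fun ω => ?_)
    rw [Real.norm_eq_abs, abs_of_nonneg (Finset.prod_nonneg fun j _ =>
      Finset.prod_nonneg fun i _ => (fk_pos _ _ _ _).le)]
    exact Finset.prod_le_prod (fun j _ => Finset.prod_nonneg fun i _ => (fk_pos _ _ _ _).le)
      fun j _ => Finset.prod_le_prod (fun i _ => (fk_pos _ _ _ _).le) fun i _ =>
        fk_bdd hR0 hK _ _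
  have hGeq : ∀ ω, G ω = ∑ κ ∈ Fintype.piFinset fun _ : Fin n => Finset.range (n + 1),
      (∏ j, ck R K (κ j)) * ∏ j, ∏ i, fk R K (κ j) (b i j ω) := by
    intro ω
    simp only [hG, GG]
    rw [Finset.prod_univ_sum]
    refine Finset.sum_congr rfl fun κ _ => ?_
    rw [Finset.prod_mul_distrib]
  have hGint : Integrable G P := by
    have : G = fun ω => ∑ κ ∈ Fintype.piFinset fun _ : Fin n => Finset.range (n + 1),
      (∏ j, ck R K (κ j)) * ∏ j, ∏ i, fk R K (κ j) (b i j ω) := funext hGeq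
    rw [this]
    exact integrable_finset_sum _ fun κ _ => (hintT κ).const_mul _
  have hEG : ∫ ω, G ω ∂P = ∏ j, ∑ k ∈ Finset.range (n + 1),
      ck R K k * ∏ i, ∫ ω, fk R K k (b i j ω) ∂P := by
    rw [integral_congr_ae (Filter.Eventually.of_forall hGeq),
      integral_finset_sum _ fun κ _ => (hintT κ).const_mul _, Finset.prod_univ_sum]
    refine Finset.sum_congr rfl fun κ _ => ?_
    rw [integral_const_mul, hint κ, Finset.prod_mul_distrib]
  have hfac : ∀ j : Fin n, ∑ k ∈ Finset.range (n + 1),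
      ck R K k * ∏ i, ∫ ω, fk R K k (b i j ω) ∂P ≤ 1 + ε ^ 2 := by
    intro j
    rw [Finset.sum_range_succ']
    have h0 : ck R K 0 * ∏ i, ∫ ω, fk R K 0 (b i j ω) ∂P = 1 := by
      simp [ck, fk]
    rw [h0]
    have h1 : ∑ k ∈ Finset.range n, ck R K (k + 1) * ∏ i, ∫ ω, fk R K (k + 1) (b i j ω) ∂P ≤
        ∑ k ∈ Finset.range n, Real.exp (-((k : ℝ) + 1)) * ε ^ 2 := by
      refine Finset.sum_le_sum fun k _ => ?_
      refine (term_bound hb hRK (Nat.succ_ne_zero k) j).trans ?_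
      push_cast
      exact mul_le_mul_of_nonneg_left hsmall (Real.exp_pos _).le
    rw [← Finset.sum_mul] at h1
    have h2 := geom_exp n
    nlinarith [sq_nonneg ε]
  have hEG2 : ∫ ω, G ω ∂P ≤ Real.exp (ε * n) := by
    rw [hEG]
    calc ∏ j, ∑ k ∈ Finset.range (n + 1), ck R K k * ∏ i, ∫ ω, fk R K k (b i j ω) ∂P
        ≤ ∏ _j : Fin n, (1 + ε ^ 2) := by
          refine Finset.prod_le_prod (fun j _ => Finset.sum_nonneg fun k _ =>
            mul_nonneg (ck_pos _ _ _).le (Finset.prod_nonneg fun i _ =>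
              integral_nonneg fun ω => (fk_pos _ _ _ _).le)) fun j _ => hfac j
      _ = (1 + ε ^ 2) ^ n := by simp
      _ ≤ Real.exp ε ^ n := by
          refine pow_le_pow_left₀ (by positivity) ?_ n
          have h1 := Real.add_one_le_exp ε
          nlinarith
      _ = Real.exp (ε * n) := by
          rw [← Real.exp_nat_mul]; congr 1; ring
  -- the bad event
  have hsub : {ω | ¬ ∃ I : Finset (Fin n), (I.card : ℝ) ≤ ε * n / 2 ∧
      ∀ j, ∑ i ∈ Iᶜ, (b i j ω) ^ 2 ≤ R} ⊆ {ω | Real.exp (2 * (ε * n)) ≤ G ω} := by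
    intro ω hω
    simp only [Set.mem_setOf_eq] at hω ⊢
    by_contra hc
    rw [not_le] at hc
    apply hω
    choose D hD1 hD2 using fun j => det hR0 hK (fun i => b i j ω) fun i => hb.bdd i j ω
    refine ⟨Finset.univ.biUnion D, ?_, fun j => ?_⟩
    · have h1 : ∏ j, Real.exp (4 * ((D j).card : ℝ)) ≤ G ω :=
        Finset.prod_le_prod (fun j _ => (Real.exp_pos _).le) fun j _ => hD2 j
      rw [← Real.exp_sum, ← Finset.mul_sum] at h1
      have h2 := Real.exp_lt_exp.1 (lt_of_le_of_lt h1 hc)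
      have h3 : ((Finset.univ.biUnion D).card : ℝ) ≤ ∑ j, ((D j).card : ℝ) := by
        exact_mod_cast Finset.card_biUnion_le
      linarith
    · refine le_trans (Finset.sum_le_sum_of_subset_of_nonneg ?_ fun _ _ _ => sq_nonneg _) (hD1 j)
      exact Finset.compl_subset_compl.2 (Finset.subset_biUnion_of_mem D (Finset.mem_univ j))
  have hGnn : ∀ ω, 0 ≤ G ω := fun ω =>
    Finset.prod_nonneg fun j _ => zero_le_one.trans (one_le_GG _ _ _)
  have hM := mul_meas_ge_le_integral_of_nonneg (μ := P)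
    (Filter.Eventually.of_forall hGnn) hGint (Real.exp (2 * (ε * n)))
  have hle : P.real {ω | ¬ ∃ I : Finset (Fin n), (I.card : ℝ) ≤ ε * n / 2 ∧
      ∀ j, ∑ i ∈ Iᶜ, (b i j ω) ^ 2 ≤ R} ≤ P.real {ω | Real.exp (2 * (ε * n)) ≤ G ω} :=
    measureReal_mono hsub
  refine hle.trans ?_
  have h5 : Real.exp (2 * (ε * n)) * P.real {ω | Real.exp (2 * (ε * n)) ≤ G ω} ≤
      Real.exp (ε * n) := hM.trans hEG2
  have h6 : Real.exp (2 * (ε * n)) = Real.exp (ε * n) * Real.exp (ε * n) := by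
    rw [← Real.exp_add]; congr 1; ring
  rw [h6, mul_assoc] at h5
  have h7 : Real.exp (ε * n) * P.real {ω | Real.exp (ε * n) * Real.exp (ε * n) ≤ G ω} ≤ 1 := by
    have hpos := Real.exp_pos (ε * n)
    by_contra hcon
    rw [not_le] at hcon
    nlinarith
  rw [h6, Real.exp_neg, ← one_div, le_div_iff₀ (Real.exp_pos _), mul_comm]
  exact h7

end Pool.Agent.W2helper15.NR
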