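import Pool.Agent.W2helper44.NR.Stm1

/-!
# Piece SPAN of helper44's project NR (MP_e965d0_ag)
-/

set_option autoImplicit false

namespace Pool.Agent.W2helper44.NR

open Module LinearMap Pool.Agent.W548.Odd Pool.Agent.Y91.JP Pool.Agent.Y126.JP

namespace H15

variable {K V : Type} [Field K] [AddCommGroup V] [Module K V]

/-- the span of the images of `S` under the operators that commute with `J` -/
def TT (J : Submodule K (End K V)) (S : Submodule K V) : Submodule K V :=
  Submodule.span K {w : V | ∃ x : End K V, (∀ y ∈ J, x * y = y * x) ∧ ∃ s ∈ S, w = x s}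

theorem TT_stable_J {J : Submodule K (End K V)} {S : Submodule K V}
    (hS : ∀ y ∈ J, ∀ s ∈ S, y s ∈ S) {y : End K V} (hy : y ∈ J) {w : V} (hw : w ∈ TT J S) :
    y w ∈ TT J S := by
  induction hw using Submodule.span_induction with
  | mem w hw =>
    obtain ⟨x, hx, s, hs, rfl⟩ := hw
    apply Submodule.subset_span
    refine ⟨x, hx, y s, hS y hy s hs, ?_⟩
    rw [← Module.End.mul_apply, ← hx y hy, Module.End.mul_apply]
  | zero => rw [map_zero]; exact Submodule.zero_mem _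
  | add a b _ _ ha hb => rw [map_add]; exact Submodule.add_mem _ ha hb
  | smul c a _ ha => rw [map_smul]; exact Submodule.smul_mem _ c ha

theorem TT_stable_C {J : Submodule K (End K V)} {S : Submodule K V} {z : End K V}
    (hz : ∀ y ∈ J, z * y = y * z) {w : V} (hw : w ∈ TT J S) : z w ∈ TT J S := by
  induction hw using Submodule.span_induction with
  | mem w hw =>
    obtain ⟨x, hx, s, hs, rfl⟩ := hw
    apply Submodule.subset_span
    refine ⟨z * x, fun y hy => ?_, s, hs, rfl⟩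
    rw [mul_assoc, hx y hy, ← mul_assoc, hz y hy, mul_assoc]
  | zero => rw [map_zero]; exact Submodule.zero_mem _
  | add a b _ _ ha hb => rw [map_add]; exact Submodule.add_mem _ ha hb
  | smul c a _ ha => rw [map_smul]; exact Submodule.smul_mem _ c ha

theorem exists_min [FiniteDimensional K V] (J : Submodule K (End K V)) (hV : ∃ v : V, v ≠ 0) :
    ∃ S : Submodule K V, S ≠ ⊥ ∧ (∀ y ∈ J, ∀ s ∈ S, y s ∈ S) ∧
      ∀ T ≤ S, (∀ y ∈ J, ∀ s ∈ T, y s ∈ T) → T = ⊥ ∨ T = S := by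
  obtain ⟨v, hv⟩ := hV
  obtain ⟨S, hS, hmin⟩ := (wellFounded_lt (α := Submodule K V)).has_min
    {S : Submodule K V | S ≠ ⊥ ∧ ∀ y ∈ J, ∀ s ∈ S, y s ∈ S}
    ⟨⊤, by
      intro h
      have h1 : v ∈ (⊤ : Submodule K V) := Submodule.mem_top
      rw [h] at h1
      exact hv ((Submodule.mem_bot K).1 h1), fun _ _ _ _ => Submodule.mem_top⟩
  refine ⟨S, hS.1, hS.2, fun T hT hst => ?_⟩
  by_cases hT0 : T = ⊥
  · exact Or.inl hT0
  · right
    by_contra hne
    exact hmin T ⟨hT0, hst⟩ (lt_of_le_of_ne hT hne)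

end H15

/-- **Piece SPAN.** -/
theorem p_SPAN : P_SPAN := by
  intro K V _ _ _ _ _ _ ω 𝔥 hbr hsp hirr hndl hndr E hE hE2 hV
  have h := setup hbr hsp hirr hndl hndr
  have hs := scal hirr
  have hI := gn_idl h hE
  obtain ⟨S, hS0, hSst, hSmin⟩ := H15.exists_min (cen 𝔥 (gn 𝔥 E)) hV
  refine ⟨S, hS0, hSst, hSmin, ?_⟩
  have hT : H15.TT (cen 𝔥 (gn 𝔥 E)) S = ⊥ ∨ H15.TT (cen 𝔥 (gn 𝔥 E)) S = ⊤ := by
    apply hirr
    intro X hX hX2 u hu
    have hD : (2 : K) • X ∈ 𝔥 := 𝔥.smul_mem 2 hX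
    have hD2 : ((2 : K) • X) * ((2 : K) • X) = 1 := by
      rw [smul_mul_assoc, mul_smul_comm, hX2, smul_smul, smul_smul]
      norm_num
    have hDu : ((2 : K) • X) u ∈ H15.TT (cen 𝔥 (gn 𝔥 E)) S := by
      rcases invol_dich h hs hI hD hD2 with h1 | h1
      · exact H15.TT_stable_C (fun y hy => (hy.2 _ h1).symm) hu
      · exact H15.TT_stable_J hSst h1 hu
    have e : X u = (2 : K)⁻¹ • (((2 : K) • X) u) := by
      rw [LinearMap.smul_apply, smul_smul, inv_mul_cancel₀ two_ne_zero, one_smul]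
    rw [e]
    exact Submodule.smul_mem _ _ hDu
  have hle : S ≤ H15.TT (cen 𝔥 (gn 𝔥 E)) S := by
    intro s hs'
    apply Submodule.subset_span
    exact ⟨1, fun y _ => by rw [one_mul, mul_one], s, hs', rfl⟩
  rcases hT with h1 | h1
  · exfalso
    apply hS0
    rw [h1] at hle
    exact le_bot_iff.1 hle
  · intro v
    have h2 : v ∈ H15.TT (cen 𝔥 (gn 𝔥 E)) S := by rw [h1]; exact Submodule.mem_top
    exact h2

end Pool.Agent.W2helper44.NR
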